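import Mathlib

/-!
Ratios of weighted moments that are not the moments of a function of bounded variation.
-/

namespace Pool.Agent.H685_haus

open MeasureTheory Filter Topology Finset

/-- The second weight. -/
noncomputable def om2 (x : ℝ) : ℝ := (1 + 84 * (1 - x) ^ 3) / 85

/-- The first weight. -/
noncomputable def om1 (x : ℝ) : ℝ := om2 x * (1 - x / 2)

/-- Riemann-Stieltjes integral over `[0,1]`. -/
def IsRS (f β : ℝ → ℝ) (I : ℝ) : Prop :=
  ∀ ε > 0, ∃ δ > 0, ∀ (N : ℕ) (t ξ : ℕ → ℝ), t 0 = 0 → t N = 1 →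
    (∀ i < N, t i ≤ t (i + 1) ∧ t (i + 1) - t i < δ ∧ ξ i ∈ Set.Icc (t i) (t (i + 1))) →
    |∑ i ∈ range N, f (ξ i) * (β (t (i + 1)) - β (t i)) - I| < ε

lemma exists_lower {δ : ℕ → ℝ} (hδ0 : ∀ n, 0 < δ n) (s : Finset ℕ) :
    ∃ d > 0, ∀ k ∈ s, d ≤ δ (k + 1) := by
  induction s using Finset.induction_on with
  | empty => exact ⟨1, one_pos, by simp⟩
  | insert a s ha ih =>
    obtain ⟨d, hd0, hd⟩ := ih
    refine ⟨min d (δ (a + 1)), lt_min hd0 (hδ0 _), fun k hk => ?_⟩
    rcases Finset.mem_insert.mp hk with rfl | hk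
    · exact min_le_right _ _
    · exact (min_le_left _ _).trans (hd k hk)

lemma functional_bound {β : ℝ → ℝ} (hβ : BoundedVariationOn β (Set.Icc 0 1)) {l : ℕ → ℝ}
    (hl : ∀ n, IsRS (fun x => x ^ n) β (l n)) (s : Finset ℕ) (b : ℕ → ℝ) {M : ℝ}
    (hM : ∀ x ∈ Set.Icc (0 : ℝ) 1, |∑ k ∈ s, b k * x ^ (k + 1)| ≤ M) :
    |∑ k ∈ s, b k * l (k + 1)| ≤ (eVariationOn β (Set.Icc 0 1)).toReal * M := by
  set V := (eVariationOn β (Set.Icc 0 1)).toReal with hV
  have hM0 : 0 ≤ M := (abs_nonneg _).trans (hM 0 (by simp))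
  refine le_of_forall_pos_le_add fun ε hε => ?_
  set B := ∑ k ∈ s, |b k| with hB
  have hB0 : 0 ≤ B := Finset.sum_nonneg fun k _ => abs_nonneg _
  set ε' := ε / (B + 1) with hε'
  have hε'0 : 0 < ε' := by positivity
  choose δ hδ0 hδ using fun n => hl n ε' hε'0
  obtain ⟨d, hd0, hd⟩ := exists_lower hδ0 s
  obtain ⟨N, hN⟩ := exists_nat_gt (1 / d)
  have hN0 : 0 < (N : ℝ) := lt_trans (by positivity) hN
  set t : ℕ → ℝ := fun i => min ((i : ℝ) / N) 1 with ht
  have htm : Monotone t := by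
    intro i j hij
    refine min_le_min_right _ ?_
    gcongr
  have ht01 : ∀ i, t i ∈ Set.Icc (0 : ℝ) 1 := fun i =>
    ⟨le_min (by positivity) zero_le_one, min_le_right _ _⟩
  have ht0 : t 0 = 0 := by simp [ht]
  have htN : t N = 1 := by
    simp only [ht]
    rw [div_self hN0.ne', min_self]
  have hmesh : ∀ i < N, t i ≤ t (i + 1) ∧ t (i + 1) - t i < d ∧ t i ∈ Set.Icc (t i) (t (i + 1)) := by
    intro i hi
    refine ⟨htm (Nat.le_succ i), ?_, le_refl _, htm (Nat.le_succ i)⟩
    have h1 : t i = (i : ℝ) / N := by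
      simp only [ht]
      rw [min_eq_left]
      rw [div_le_one hN0]
      exact_mod_cast hi.le
    have h2 : t (i + 1) ≤ ((i + 1 : ℕ) : ℝ) / N := min_le_left _ _
    have h3 : ((i + 1 : ℕ) : ℝ) / N - (i : ℝ) / N = 1 / N := by
      push_cast; field_simp; ring
    have h4 : 1 / (N : ℝ) < d := by
      rw [div_lt_iff₀ hN0]
      rw [div_lt_iff₀ hd0] at hN
      linarith
    linarith
  set S : ℕ → ℝ := fun n => ∑ i ∈ range N, (t i) ^ n * (β (t (i + 1)) - β (t i)) with hS
  have hSl : ∀ k ∈ s, |S (k + 1) - l (k + 1)| < ε' := by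
    intro k hk
    apply hδ (k + 1) N t t ht0 htN
    intro i hi
    obtain ⟨h1, h2, h3⟩ := hmesh i hi
    exact ⟨h1, h2.trans_le (hd k hk), h3⟩
  have hvar : ∑ i ∈ range N, |β (t (i + 1)) - β (t i)| ≤ V := by
    have h1 := eVariationOn.sum_le (f := β) (s := Set.Icc (0 : ℝ) 1) (n := N) htm ht01
    have h2 : (∑ i ∈ range N, edist (β (t (i + 1))) (β (t i))).toReal
        = ∑ i ∈ range N, |β (t (i + 1)) - β (t i)| := by
      rw [ENNReal.toReal_sum (fun i _ => edist_ne_top _ _)]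
      refine Finset.sum_congr rfl fun i _ => ?_
      rw [edist_dist, ENNReal.toReal_ofReal dist_nonneg, Real.dist_eq]
    rw [← h2]
    exact ENNReal.toReal_mono hβ h1
  have hmain : |∑ k ∈ s, b k * S (k + 1)| ≤ V * M := by
    have e1 : ∑ k ∈ s, b k * S (k + 1)
        = ∑ i ∈ range N, (∑ k ∈ s, b k * (t i) ^ (k + 1)) * (β (t (i + 1)) - β (t i)) := by
      simp only [hS, Finset.mul_sum, Finset.sum_mul]
      rw [Finset.sum_comm]
      refine Finset.sum_congr rfl fun i _ => Finset.sum_congr rfl fun k _ => ?_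
      ring
    rw [e1]
    refine (Finset.abs_sum_le_sum_abs _ _).trans ?_
    have e2 : ∀ i ∈ range N, |(∑ k ∈ s, b k * (t i) ^ (k + 1)) * (β (t (i + 1)) - β (t i))|
        ≤ M * |β (t (i + 1)) - β (t i)| := by
      intro i _
      rw [abs_mul]
      exact mul_le_mul_of_nonneg_right (hM _ (ht01 i)) (abs_nonneg _)
    refine (Finset.sum_le_sum e2).trans ?_
    rw [← Finset.mul_sum, mul_comm]
    exact mul_le_mul_of_nonneg_right hvar hM0
  have hdiff : |∑ k ∈ s, b k * l (k + 1) - ∑ k ∈ s, b k * S (k + 1)| ≤ ε := by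
    rw [← Finset.sum_sub_distrib]
    refine (Finset.abs_sum_le_sum_abs _ _).trans ?_
    have e2 : ∀ k ∈ s, |b k * l (k + 1) - b k * S (k + 1)| ≤ |b k| * ε' := by
      intro k hk
      rw [← mul_sub, abs_mul, abs_sub_comm]
      exact mul_le_mul_of_nonneg_left (hSl k hk).le (abs_nonneg _)
    refine (Finset.sum_le_sum e2).trans ?_
    rw [← Finset.sum_mul, ← hB, hε', mul_div_assoc', div_le_iff₀ (by positivity)]
    nlinarith
  have := abs_sub_abs_le_abs_sub (∑ k ∈ s, b k * l (k + 1)) (∑ k ∈ s, b k * S (k + 1))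
  linarith

/-- The exponent. -/
noncomputable def rr : ℂ := ⟨1, Real.sqrt 47⟩

lemma rr_re : rr.re = 1 := rfl

lemma rr_rel : rr ^ 2 - 2 * rr + 48 = 0 := by
  have h : Real.sqrt 47 * Real.sqrt 47 = 47 := Real.mul_self_sqrt (by norm_num)
  apply Complex.ext
  · simp only [rr, sq, Complex.add_re, Complex.sub_re, Complex.mul_re, Complex.re_ofNat,
      Complex.im_ofNat, Complex.zero_re]
    rw [h]; norm_num
  · simp only [rr, sq, Complex.add_im, Complex.sub_im, Complex.mul_im, Complex.re_ofNat,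
      Complex.im_ofNat, Complex.zero_im]
    ring

lemma rr_add_ne {c : ℝ} (hc : 0 ≤ c) : rr + c ≠ 0 := by
  intro h
  have := congrArg Complex.re h
  rw [Complex.add_re, rr_re, Complex.ofReal_re, Complex.zero_re] at this
  linarith

lemma cpow_cont : Continuous (fun x : ℝ => (x : ℂ) ^ rr) :=
  Complex.continuous_ofReal_cpow_const (by rw [rr_re]; exact one_pos)

/-- The test function. -/
noncomputable def eta (x : ℝ) : ℝ := ((x : ℂ) ^ rr).re

lemma eta_cont : Continuous eta := Complex.continuous_re.comp cpow_cont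

lemma int_pow (k : ℕ) : ∫ y in (0 : ℝ)..1, (y : ℂ) ^ k * (y : ℂ) ^ rr = 1 / (rr + k + 1) := by
  have h1 : ∀ y : ℝ, (y : ℂ) ^ k * (y : ℂ) ^ rr = (y : ℂ) ^ (rr + k) := by
    intro y
    by_cases hy : (y : ℂ) = 0
    · have hr : rr ≠ 0 := by
        intro h
        have := congrArg Complex.re h
        rw [rr_re] at this
        simp at this
      have hr2 : rr + k ≠ 0 := by
        intro h
        have := congrArg Complex.re h
        rw [Complex.add_re, rr_re, Complex.natCast_re] at this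
        have h0 : (0 : ℝ) ≤ k := Nat.cast_nonneg k
        simp at this
        linarith
      rw [hy, Complex.zero_cpow hr, Complex.zero_cpow hr2, mul_zero]
    · rw [Complex.cpow_add _ _ hy, Complex.cpow_natCast, mul_comm]
  simp only [h1]
  rw [integral_cpow]
  · have hne : rr + k + 1 ≠ 0 := by
      intro h
      have := congrArg Complex.re h
      rw [Complex.add_re, Complex.add_re, rr_re, Complex.natCast_re] at this
      have h0 : (0 : ℝ) ≤ k := Nat.cast_nonneg k
      simp at this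
      linarith
    rw [Complex.ofReal_one, Complex.one_cpow, Complex.ofReal_zero, Complex.zero_cpow hne, sub_zero]
  · left
    rw [Complex.add_re, rr_re, Complex.natCast_re]
    have h0 : (0 : ℝ) ≤ k := Nat.cast_nonneg k
    linarith

lemma int_cont (k : ℕ) : IntervalIntegrable (fun y : ℝ => (y : ℂ) ^ k * (y : ℂ) ^ rr) volume 0 1 :=
  (((Complex.continuous_ofReal).pow k).mul cpow_cont).intervalIntegrable _ _

/-- The Mellin zero. -/
lemma om2_int : ∫ y in (0 : ℝ)..1, ((om2 y : ℝ) : ℂ) * (y : ℂ) ^ rr = 0 := by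
  have e : ∀ y : ℝ, ((om2 y : ℝ) : ℂ) * (y : ℂ) ^ rr
      = (85 : ℂ) / 85 * ((y : ℂ) ^ 0 * (y : ℂ) ^ rr) - 252 / 85 * ((y : ℂ) ^ 1 * (y : ℂ) ^ rr)
        + 252 / 85 * ((y : ℂ) ^ 2 * (y : ℂ) ^ rr) - 84 / 85 * ((y : ℂ) ^ 3 * (y : ℂ) ^ rr) := by
    intro y
    rw [om2]
    push_cast
    ring
  simp only [e]
  have i0 := (int_cont 0).const_mul ((85 : ℂ) / 85)
  have i1 := (int_cont 1).const_mul ((252 : ℂ) / 85)
  have i2 := (int_cont 2).const_mul ((252 : ℂ) / 85)
  have i3 := (int_cont 3).const_mul ((84 : ℂ) / 85)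
  rw [intervalIntegral.integral_sub ((i0.sub i1).add i2) i3,
    intervalIntegral.integral_add (i0.sub i1) i2, intervalIntegral.integral_sub i0 i1,
    intervalIntegral.integral_const_mul, intervalIntegral.integral_const_mul,
    intervalIntegral.integral_const_mul, intervalIntegral.integral_const_mul,
    int_pow, int_pow, int_pow, int_pow]
  have h1 : rr + 1 ≠ 0 := by have := rr_add_ne (c := 1) (by norm_num); simpa using this
  have h2 : rr + 2 ≠ 0 := by have := rr_add_ne (c := 2) (by norm_num); simpa using this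
  have h3 : rr + 3 ≠ 0 := by have := rr_add_ne (c := 3) (by norm_num); simpa using this
  have h4 : rr + 4 ≠ 0 := by have := rr_add_ne (c := 4) (by norm_num); simpa using this
  have e0 : rr + ((0 : ℕ) : ℂ) + 1 = rr + 1 := by push_cast; ring
  have e1 : rr + ((1 : ℕ) : ℂ) + 1 = rr + 2 := by push_cast; ring
  have e2 : rr + ((2 : ℕ) : ℂ) + 1 = rr + 3 := by push_cast; ring
  have e3 : rr + ((3 : ℕ) : ℂ) + 1 = rr + 4 := by push_cast; ring
  rw [e0, e1, e2, e3]
  field_simp
  linear_combination (rr + 11) * rr_rel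

/-- The Mellin value at the shifted point. -/
lemma om2_int' : ∫ y in (0 : ℝ)..1, ((om2 y : ℝ) : ℂ) * ((y : ℂ) * (y : ℂ) ^ rr)
    = 1 / (rr + 2) - 252 / 85 / (rr + 3) + 252 / 85 / (rr + 4) - 84 / 85 / (rr + 5) := by
  have e : ∀ y : ℝ, ((om2 y : ℝ) : ℂ) * ((y : ℂ) * (y : ℂ) ^ rr)
      = (85 : ℂ) / 85 * ((y : ℂ) ^ 1 * (y : ℂ) ^ rr) - 252 / 85 * ((y : ℂ) ^ 2 * (y : ℂ) ^ rr)
        + 252 / 85 * ((y : ℂ) ^ 3 * (y : ℂ) ^ rr) - 84 / 85 * ((y : ℂ) ^ 4 * (y : ℂ) ^ rr) := by
    intro y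
    rw [om2]
    push_cast
    ring
  simp only [e]
  have i0 := (int_cont 1).const_mul ((85 : ℂ) / 85)
  have i1 := (int_cont 2).const_mul ((252 : ℂ) / 85)
  have i2 := (int_cont 3).const_mul ((252 : ℂ) / 85)
  have i3 := (int_cont 4).const_mul ((84 : ℂ) / 85)
  rw [intervalIntegral.integral_sub ((i0.sub i1).add i2) i3,
    intervalIntegral.integral_add (i0.sub i1) i2, intervalIntegral.integral_sub i0 i1,
    intervalIntegral.integral_const_mul, intervalIntegral.integral_const_mul,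
    intervalIntegral.integral_const_mul, intervalIntegral.integral_const_mul,
    int_pow, int_pow, int_pow, int_pow]
  have e1 : rr + ((1 : ℕ) : ℂ) + 1 = rr + 2 := by push_cast; ring
  have e2 : rr + ((2 : ℕ) : ℂ) + 1 = rr + 3 := by push_cast; ring
  have e3 : rr + ((3 : ℕ) : ℂ) + 1 = rr + 4 := by push_cast; ring
  have e4 : rr + ((4 : ℕ) : ℂ) + 1 = rr + 5 := by push_cast; ring
  rw [e1, e2, e3, e4]
  ring

lemma om2_cont : Continuous om2 := by unfold om2; fun_prop

lemma om1_cont : Continuous om1 := by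
  have := om2_cont
  unfold om1
  fun_prop

lemma om1_int : ∫ y in (0 : ℝ)..1, ((om1 y : ℝ) : ℂ) * (y : ℂ) ^ rr = (60 + 27 * rr) / 790160 := by
  have e : ∀ y : ℝ, ((om1 y : ℝ) : ℂ) * (y : ℂ) ^ rr
      = ((om2 y : ℝ) : ℂ) * (y : ℂ) ^ rr - 1 / 2 * (((om2 y : ℝ) : ℂ) * ((y : ℂ) * (y : ℂ) ^ rr)) := by
    intro y
    rw [om1]
    push_cast
    ring
  simp only [e]
  have c2 : Continuous (fun y : ℝ => ((om2 y : ℝ) : ℂ)) := Complex.continuous_ofReal.comp om2_cont
  have i0 : IntervalIntegrable (fun y : ℝ => ((om2 y : ℝ) : ℂ) * (y : ℂ) ^ rr) volume 0 1 :=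
    (c2.mul cpow_cont).intervalIntegrable _ _
  have i1 : IntervalIntegrable (fun y : ℝ => (1 / 2 : ℂ) *
      (((om2 y : ℝ) : ℂ) * ((y : ℂ) * (y : ℂ) ^ rr))) volume 0 1 :=
    (continuous_const.mul
      (c2.mul (Complex.continuous_ofReal.mul cpow_cont))).intervalIntegrable _ _
  rw [intervalIntegral.integral_sub i0 i1, intervalIntegral.integral_const_mul, om2_int, om2_int']
  have h2 : rr + 2 ≠ 0 := by have := rr_add_ne (c := 2) (by norm_num); simpa using this
  have h3 : rr + 3 ≠ 0 := by have := rr_add_ne (c := 3) (by norm_num); simpa using this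
  have h4 : rr + 4 ≠ 0 := by have := rr_add_ne (c := 4) (by norm_num); simpa using this
  have h5 : rr + 5 ≠ 0 := by have := rr_add_ne (c := 5) (by norm_num); simpa using this
  have key : 1 / (rr + 2) - 252 / 85 / (rr + 3) + 252 / 85 / (rr + 4) - 84 / 85 / (rr + 5)
      = -(60 + 27 * rr) / 395080 := by
    field_simp
    linear_combination 85 * (27 * rr ^ 3 + 492 * rr ^ 2 + 7093 * rr + 54764) * rr_rel
  rw [key]
  ring

lemma re_int {f : ℝ → ℝ} (hf : Continuous f) (z : ℂ) :
    ∫ y in (0 : ℝ)..1, f y * (z * (y : ℂ) ^ rr).re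
      = (z * ∫ y in (0 : ℝ)..1, ((f y : ℝ) : ℂ) * (y : ℂ) ^ rr).re := by
  have c2 : Continuous (fun y : ℝ => ((f y : ℝ) : ℂ)) := Complex.continuous_ofReal.comp hf
  have h := Complex.reCLM.intervalIntegral_comp_comm
    (f := fun y : ℝ => z * (((f y : ℝ) : ℂ) * (y : ℂ) ^ rr)) (μ := volume) (a := 0) (b := 1)
    ((continuous_const.mul (c2.mul cpow_cont)).intervalIntegrable _ _)
  rw [intervalIntegral.integral_const_mul] at h
  rw [Complex.reCLM_apply] at h
  rw [← h]
  refine intervalIntegral.integral_congr fun y _ => ?_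
  change _ = (z * (((f y : ℝ) : ℂ) * (y : ℂ) ^ rr)).re
  have : z * (((f y : ℝ) : ℂ) * (y : ℂ) ^ rr) = ((f y : ℝ) : ℂ) * (z * (y : ℂ) ^ rr) := by ring
  rw [this, Complex.re_ofReal_mul]

lemma om2_eta {x : ℝ} (hx : 0 ≤ x) : ∫ y in (0 : ℝ)..1, om2 y * eta (x * y) = 0 := by
  have e : ∫ y in (0 : ℝ)..1, om2 y * eta (x * y)
      = ∫ y in (0 : ℝ)..1, om2 y * ((x : ℂ) ^ rr * (y : ℂ) ^ rr).re := by
    refine intervalIntegral.integral_congr fun y hy => ?_
    rw [Set.uIcc_of_le zero_le_one] at hy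
    change om2 y * (((x * y : ℝ) : ℂ) ^ rr).re = _
    rw [Complex.ofReal_mul, Complex.mul_cpow_ofReal_nonneg hx hy.1]
  rw [e, re_int om2_cont, om2_int, mul_zero, Complex.zero_re]

lemma om1_eta : ∫ y in (0 : ℝ)..1, om1 y * eta y = 87 / 790160 := by
  have e : ∫ y in (0 : ℝ)..1, om1 y * eta y
      = ∫ y in (0 : ℝ)..1, om1 y * (1 * (y : ℂ) ^ rr).re := by
    refine intervalIntegral.integral_congr fun y hy => ?_
    change om1 y * ((y : ℂ) ^ rr).re = _
    rw [one_mul]
  rw [e, re_int om1_cont, one_mul, om1_int]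
  have : (60 + 27 * rr) / 790160 = (((1 / 790160 : ℝ)) : ℂ) * (60 + 27 * rr) := by
    push_cast; ring
  rw [this, Complex.re_ofReal_mul, Complex.add_re]
  have h2 : (27 * rr : ℂ).re = 27 := by
    have : (27 * rr : ℂ) = ((27 : ℝ) : ℂ) * rr := by push_cast; ring
    rw [this, Complex.re_ofReal_mul, rr_re, mul_one]
  rw [h2]
  norm_num

lemma om2_pos {x : ℝ} (hx : x ≤ 1) : 0 < om2 x := by
  rw [om2]
  have : 0 ≤ (1 - x) ^ 3 := pow_nonneg (by linarith) 3
  positivity

lemma om2_le {x : ℝ} (h0 : 0 ≤ x) (hx : x ≤ 1) : om2 x ≤ 1 := by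
  rw [om2]
  have : (1 - x) ^ 3 ≤ 1 := pow_le_one₀ (by linarith) (by linarith)
  linarith

lemma om1_pos {x : ℝ} (hx : x ≤ 1) : 0 < om1 x := by
  rw [om1]
  exact mul_pos (om2_pos hx) (by linarith)

lemma om1_le {x : ℝ} (h0 : 0 ≤ x) (hx : x ≤ 1) : om1 x ≤ 1 := by
  rw [om1]
  exact mul_le_one₀ (om2_le h0 hx) (by linarith) (by linarith)

open Polynomial in
/-- **No function of bounded variation solves the moment problem.** -/
theorem no_bv {β : ℝ → ℝ} (hβ : BoundedVariationOn β (Set.Icc 0 1)) {l : ℕ → ℝ}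
    (hl : ∀ n, IsRS (fun x => x ^ n) β (l n))
    (hlam : ∀ n, l (n + 1) = (∫ x in (0 : ℝ)..1, om1 x * x ^ n)
      * (∫ x in (0 : ℝ)..1, om2 x * x ^ n)⁻¹) : False := by
  set V := (eVariationOn β (Set.Icc 0 1)).toReal with hV
  have hV0 : 0 ≤ V := ENNReal.toReal_nonneg
  set ε : ℝ := 87 / 790160 / (2 * (V + 1)) with hε
  have hε0 : 0 < ε := by positivity
  obtain ⟨p, hp⟩ := exists_polynomial_near_of_continuousOn 0 1 eta eta_cont.continuousOn ε hε0
  have hm2 : ∀ n : ℕ, 0 < ∫ x in (0 : ℝ)..1, om2 x * x ^ n := by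
    intro n
    apply intervalIntegral.intervalIntegral_pos_of_pos_on
      ((om2_cont.mul (continuous_pow n)).intervalIntegrable _ _) _ one_pos
    intro x hx
    exact mul_pos (om2_pos hx.2.le) (pow_pos hx.1 n)
  set s := range (p.natDegree + 1) with hs
  have hpe : ∀ x, p.eval x = ∑ k ∈ s, p.coeff k * x ^ k := fun x => p.eval_eq_sum_range x
  -- integrals of `p`
  have hint : ∀ (f : ℝ → ℝ) (_ : Continuous f) (x : ℝ),
      ∫ y in (0 : ℝ)..1, f y * p.eval (x * y)
        = ∑ k ∈ s, p.coeff k * (∫ y in (0 : ℝ)..1, f y * y ^ k) * x ^ k := by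
    intro f hf x
    have e : ∀ y, f y * p.eval (x * y) = ∑ k ∈ s, (p.coeff k * x ^ k) * (f y * y ^ k) := by
      intro y
      rw [hpe, Finset.mul_sum]
      refine Finset.sum_congr rfl fun k _ => ?_
      rw [mul_pow]; ring
    simp only [e]
    rw [intervalIntegral.integral_finsetSum]
    · refine Finset.sum_congr rfl fun k _ => ?_
      rw [intervalIntegral.integral_const_mul]; ring
    · intro k _
      exact (continuous_const.mul (hf.mul (continuous_pow k))).intervalIntegrable _ _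
  have hpc : Continuous (fun x => p.eval x) := p.continuous
  have h1 := functional_bound hβ hl s (fun k => p.coeff k * ∫ y in (0 : ℝ)..1, om2 y * y ^ k)
    (M := ε) (by
      intro x hx
      have e1 : ∑ k ∈ s, (p.coeff k * ∫ y in (0 : ℝ)..1, om2 y * y ^ k) * x ^ (k + 1)
          = x * ∫ y in (0 : ℝ)..1, om2 y * (p.eval (x * y) - eta (x * y)) := by
        have e2 : ∫ y in (0 : ℝ)..1, om2 y * (p.eval (x * y) - eta (x * y))
            = (∫ y in (0 : ℝ)..1, om2 y * p.eval (x * y))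
              - ∫ y in (0 : ℝ)..1, om2 y * eta (x * y) := by
          rw [← intervalIntegral.integral_sub]
          · refine intervalIntegral.integral_congr fun y _ => ?_
            ring
          · exact (om2_cont.mul (hpc.comp (continuous_const.mul continuous_id))).intervalIntegrable _ _
          · exact (om2_cont.mul (eta_cont.comp (continuous_const.mul continuous_id))).intervalIntegrable _ _
        rw [e2, om2_eta hx.1, sub_zero, hint om2 om2_cont x, Finset.mul_sum]
        refine Finset.sum_congr rfl fun k _ => ?_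
        ring
      rw [e1, abs_mul, abs_of_nonneg hx.1]
      have h2 : |∫ y in (0 : ℝ)..1, om2 y * (p.eval (x * y) - eta (x * y))| ≤ ε * |(1 : ℝ) - 0| := by
        rw [← Real.norm_eq_abs]
        apply intervalIntegral.norm_integral_le_of_norm_le_const
        intro y hy
        rw [Set.uIoc_of_le zero_le_one] at hy
        rw [Real.norm_eq_abs, abs_mul, abs_of_pos (om2_pos hy.2)]
        have h3 := hp (x * y) ⟨mul_nonneg hx.1 hy.1.le, mul_le_one₀ hx.2 hy.1.le hy.2⟩
        have h4 := om2_le hy.1.le hy.2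
        calc om2 y * |p.eval (x * y) - eta (x * y)| ≤ 1 * |p.eval (x * y) - eta (x * y)| :=
              mul_le_mul_of_nonneg_right h4 (abs_nonneg _)
          _ ≤ ε := by rw [one_mul]; exact h3.le
      rw [sub_zero, abs_one, mul_one] at h2
      calc x * |∫ y in (0 : ℝ)..1, om2 y * (p.eval (x * y) - eta (x * y))| ≤ 1 * ε :=
            mul_le_mul hx.2 h2 (abs_nonneg _) zero_le_one
        _ = ε := one_mul ε)
  have e3 : ∑ k ∈ s, (p.coeff k * ∫ y in (0 : ℝ)..1, om2 y * y ^ k) * l (k + 1)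
      = ∫ y in (0 : ℝ)..1, om1 y * p.eval y := by
    have := hint om1 om1_cont 1
    simp only [one_mul, one_pow, mul_one] at this
    rw [this]
    refine Finset.sum_congr rfl fun k _ => ?_
    rw [hlam k]
    have := (hm2 k).ne'
    field_simp
  rw [e3] at h1
  have h5 : |(∫ y in (0 : ℝ)..1, om1 y * p.eval y) - ∫ y in (0 : ℝ)..1, om1 y * eta y| ≤ ε := by
    rw [← intervalIntegral.integral_sub]
    · have h2 : ‖∫ y in (0 : ℝ)..1, (om1 y * p.eval y - om1 y * eta y)‖ ≤ ε * |(1 : ℝ) - 0| := by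
        apply intervalIntegral.norm_integral_le_of_norm_le_const
        intro y hy
        rw [Set.uIoc_of_le zero_le_one] at hy
        rw [← mul_sub, Real.norm_eq_abs, abs_mul, abs_of_pos (om1_pos hy.2)]
        have h3 := hp y ⟨hy.1.le, hy.2⟩
        have h4 := om1_le hy.1.le hy.2
        calc om1 y * |p.eval y - eta y| ≤ 1 * |p.eval y - eta y| :=
              mul_le_mul_of_nonneg_right h4 (abs_nonneg _)
          _ ≤ ε := by rw [one_mul]; exact h3.le
      rw [sub_zero, abs_one, mul_one, Real.norm_eq_abs] at h2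
      exact h2
    · exact (om1_cont.mul hpc).intervalIntegrable _ _
    · exact (om1_cont.mul eta_cont).intervalIntegrable _ _
  rw [om1_eta] at h5
  have h6 : (V + 1) * ε = 87 / 790160 / 2 := by
    rw [hε]; field_simp
  have h7 := abs_sub_abs_le_abs_sub (87 / 790160 : ℝ) (∫ y in (0 : ℝ)..1, om1 y * p.eval y)
  rw [abs_sub_comm] at h5
  rw [abs_of_pos (show (0 : ℝ) < 87 / 790160 by norm_num)] at h7
  nlinarith

end Pool.Agent.H685_haus
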